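import Mathlib
import Pool.Agent.H88.KSFinal
import Pool.Agent.H88.KSExist

universe u v

open Pool.Agent.H88.KS

namespace Pool.Agent.Results.MP_9607dd_gt.SpTwoKSpace

/-- Sanity check (not part of `result`): a free topological vector space over a Tychonoff space
exists. -/
theorem exists_isFreeTVS (X : Type u) [TopologicalSpace X] [T35Space X] :
    ∃ (V : Type u) (_ : AddCommGroup V) (_ : Module ℝ V) (_ : TopologicalSpace V) (i : X → V),
      IsFreeTVS i :=
  exists_free X

/-- Let `X` be a Tychonoff `k^*`-metrizable space (metrizable or not) and `(V, i)` the free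
topological vector space over `X`. If `sp_2(X)` is a `k`-space, then `V(X)` is a `k`-space; in fact
`V(X)` and `X` are `k_ω`-spaces. -/
theorem result : ∀ (X : Type u) [TopologicalSpace X] [T35Space X], IsKStarMetrizable.{u, v} X →
    ∀ (V : Type u) [AddCommGroup V] [Module ℝ V] [TopologicalSpace V] (i : X → V),
      IsFreeTVS i → IsKSpace (sp i 2) →
        IsKSpace V ∧ IsKOmegaSpace V ∧ IsKOmegaSpace X := by
  intro X _ _ hX V _ _ _ i hV h2
  obtain ⟨h3, h4, h5⟩ := main hX hV h2
  exact ⟨h5, h4, h3⟩

end Pool.Agent.Results.MP_9607dd_gt.SpTwoKSpace
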